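import Mathlib

/-!
# Combinatorial core of the Galvin-Miller construction of a `γ`-set
-/

set_option autoImplicit false

open Set Filter

namespace Pool.Agent.H62.Sel

/-- codes of clopen sets -/
abbrev Code := Finset (List ℕ)

/-- the clopen set coded by `S` -/
def cl (S : Code) : Set (ℕ → ℕ) := {x | ∃ k, (List.range k).map x ∈ S}

lemma map_range_eq_iff (x y : ℕ → ℕ) (k : ℕ) :
    (List.range k).map x = (List.range k).map y ↔ ∀ i < k, x i = y i := by
  rw [List.map_inj_left]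
  simp

lemma cl_nhd {S : Code} {x : ℕ → ℕ} (hx : x ∈ cl S) :
    ∃ k, ∀ y : ℕ → ℕ, (∀ i < k, y i = x i) → y ∈ cl S := by
  obtain ⟨k, hk⟩ := hx
  refine ⟨k, fun y hy => ⟨k, ?_⟩⟩
  rwa [(map_range_eq_iff y x k).2 hy]

/-- bounded points -/
def P0 : Set (ℕ → ℕ) := {x | ∀ n, x n ≤ n + 1}

/-- the rational points -/
def Q0 : Set (ℕ → ℕ) := {x | x ∈ P0 ∧ ∃ N, ∀ n ≥ N, x n = 0}

/-- every finite subset of `Z` is contained in a member of the family coded by `C` -/
def Cov (C : Set Code) (Z : Set (ℕ → ℕ)) : Prop :=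
  ∀ F : Finset (ℕ → ℕ), (F : Set (ℕ → ℕ)) ⊆ Z → ∃ S ∈ C, (F : Set (ℕ → ℕ)) ⊆ cl S

/-- heads: bounded sequences vanishing from `k` on -/
def heads (k : ℕ) : Set (ℕ → ℕ) := {x | x ∈ P0 ∧ ∀ n ≥ k, x n = 0}

lemma heads_finite (k : ℕ) : (heads k).Finite := by
  have h : (Set.pi univ (fun i : Fin k => Set.Iic ((i : ℕ) + 1))).Finite :=
    Set.Finite.pi fun i => Set.finite_Iic _
  refine Set.Finite.of_finite_image (f := fun (x : ℕ → ℕ) (i : Fin k) => x i)
    (h.subset ?_) ?_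
  · rintro _ ⟨x, hx, rfl⟩ i -
    exact hx.1 i
  · intro x hx y hy hxy
    funext n
    by_cases hn : n < k
    · exact congrFun hxy ⟨n, hn⟩
    · rw [hx.2 n (not_lt.1 hn), hy.2 n (not_lt.1 hn)]

lemma heads_subset (k : ℕ) : heads k ⊆ Q0 := fun _ hx => ⟨hx.1, k, hx.2⟩

/-- one step of the construction -/
lemma gm_step {a' : Set ℕ} (ha' : a'.Infinite) {Z : Set (ℕ → ℕ)} {C : Set Code}
    (hC : Cov C (Z ∪ Q0)) (F : Finset (ℕ → ℕ)) (hF : (F : Set (ℕ → ℕ)) ⊆ Z) (m : ℕ) :
    ∃ S ∈ C, (F : Set (ℕ → ℕ)) ⊆ cl S ∧ ∃ m' ∈ a', m < m' ∧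
      ∀ q ∈ heads (2 * (m + 1)), ∀ x : ℕ → ℕ, (∀ i < 2 * m', x i = q i) → x ∈ cl S := by
  classical
  obtain ⟨S, hS, hSF⟩ := hC (F ∪ (heads_finite (2 * (m + 1))).toFinset) (by
    intro x hx
    simp only [Finset.coe_union, Finite.coe_toFinset, mem_union, Finset.mem_coe] at hx
    rcases hx with hx | hx
    · exact Or.inl (hF hx)
    · exact Or.inr (heads_subset _ hx))
  refine ⟨S, hS, fun x hx => hSF (by simp [Finset.mem_coe.1 hx]), ?_⟩
  have h1 : ∀ q ∈ heads (2 * (m + 1)), ∃ k, ∀ y : ℕ → ℕ, (∀ i < k, y i = q i) → y ∈ cl S :=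
    fun q hq => cl_nhd (hSF (by simp [hq]))
  choose! k hk using h1
  obtain ⟨K, hK⟩ := ((heads_finite (2 * (m + 1))).image k).bddAbove
  obtain ⟨m', hm', hlt⟩ := ha'.exists_gt (max m K)
  refine ⟨m', hm', (le_max_left _ _).trans_lt hlt, fun q hq x hx => hk q hq x fun i hi => hx i ?_⟩
  have h2 : k q ≤ K := hK ⟨q, hq, rfl⟩
  have h3 : K < m' := (le_max_right _ _).trans_lt hlt
  omega

/-- The Galvin-Miller lemma. -/
lemma gm {a' : Set ℕ} (ha' : a'.Infinite) {Z : Set (ℕ → ℕ)} (hZ : Z.Countable)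
    {C : ℕ → Set Code} (hC : ∀ n, Cov (C n) (Z ∪ Q0)) :
    ∃ a ⊆ a', a.Infinite ∧ ∃ S : ℕ → Code, (∀ n, S n ∈ C n) ∧
      (∀ y ∈ Z, ∀ᶠ n in atTop, y ∈ cl (S n)) ∧
      ∀ x ∈ P0, (∃ N, ∀ n ≥ N, n / 2 ∉ a → x n = 0) → ∀ᶠ n in atTop, x ∈ cl (S n) := by
  classical
  -- enumerate `Z` by finite sets
  obtain ⟨F, hFZ, hFm⟩ : ∃ F : ℕ → Finset (ℕ → ℕ), (∀ n, (F n : Set (ℕ → ℕ)) ⊆ Z) ∧
      ∀ y ∈ Z, ∀ᶠ n in atTop, y ∈ F n := by
    rcases Z.eq_empty_or_nonempty with rfl | hne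
    · exact ⟨fun _ => ∅, by simp, by simp⟩
    · obtain ⟨f, hf⟩ := hZ.exists_eq_range hne
      refine ⟨fun n => (Finset.range n).image f, ?_, ?_⟩
      · intro n y hy
        simp only [Finset.coe_image, mem_image] at hy
        obtain ⟨i, -, rfl⟩ := hy
        rw [hf]
        exact ⟨i, rfl⟩
      · intro y hy
        rw [hf] at hy
        obtain ⟨i, rfl⟩ := hy
        filter_upwards [eventually_gt_atTop i] with n hn
        exact Finset.mem_image_of_mem _ (Finset.mem_range.2 hn)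
  have hstep : ∀ (n m : ℕ), ∃ S ∈ C n, (F n : Set (ℕ → ℕ)) ⊆ cl S ∧ ∃ m' ∈ a', m < m' ∧
      ∀ q ∈ heads (2 * (m + 1)), ∀ x : ℕ → ℕ, (∀ i < 2 * m', x i = q i) → x ∈ cl S :=
    fun n m => gm_step ha' (hC n) (F n) (hFZ n) m
  choose S hS hSF m' hm'a hlt hx using hstep
  obtain ⟨m0, hm0⟩ := ha'.nonempty
  let m : ℕ → ℕ := fun n => Nat.rec m0 (fun n k => m' n k) n
  have hm_succ : ∀ n, m (n + 1) = m' n (m n) := fun n => rfl
  have hma : ∀ n, m n ∈ a' := by
    intro n
    cases n with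
    | zero => exact hm0
    | succ n => rw [hm_succ]; exact hm'a _ _
  have hmono : StrictMono m := strictMono_nat_of_lt_succ fun n => by
    rw [hm_succ]; exact hlt _ _
  refine ⟨range m, ?_, infinite_range_of_injective hmono.injective, fun n => S n (m n),
    fun n => hS _ _, ?_, ?_⟩
  · rintro _ ⟨n, rfl⟩
    exact hma n
  · intro y hy
    filter_upwards [hFm y hy] with n hn
    exact hSF _ _ hn
  · rintro x hxP ⟨N, hN⟩
    filter_upwards [eventually_ge_atTop N] with n hn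
    -- the head of x
    have hnm : n ≤ m n := hmono.id_le n
    refine hx n (m n) (fun i => if i < 2 * (m n + 1) then x i else 0) ⟨?_, ?_⟩ x ?_
    · intro i
      change (if i < 2 * (m n + 1) then x i else 0) ≤ i + 1
      split_ifs
      · exact hxP i
      · exact Nat.zero_le _
    · intro i hi
      simp [not_lt.2 hi]
    · intro i hi
      split_ifs with h
      · rfl
      · refine hN i (by omega) ?_
        rintro ⟨j, hj⟩
        rw [← hm_succ] at hi
        have h1 : m n < m j := by omega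
        have h2 : m j < m (n + 1) := by omega
        have h3 := (hmono.lt_iff_lt (a := n) (b := j)).1 h1
        have h4 := (hmono.lt_iff_lt (a := j) (b := n + 1)).1 h2
        omega

/-- Countable families with infinite finite intersections have a pseudo-intersection. -/
lemma pseudo {J : Type*} [Countable J] (b : J → Set ℕ)
    (hb : ∀ s : Finset J, (⋂ j ∈ s, b j).Infinite) :
    ∃ a : Set ℕ, a.Infinite ∧ ∀ j, (a \ b j).Finite := by
  classical
  rcases isEmpty_or_nonempty J with hJ | hJ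
  · exact ⟨univ, infinite_univ, fun j => (hJ.false j).elim⟩
  obtain ⟨f, hf⟩ := exists_surjective_nat J
  have h1 : ∀ n m : ℕ, ∃ m' > m, ∀ i ≤ n, m' ∈ b (f i) := by
    intro n m
    obtain ⟨m', hm', hlt⟩ := (hb ((Finset.range (n + 1)).image f)).exists_gt m
    refine ⟨m', hlt, fun i hi => ?_⟩
    rw [mem_iInter₂] at hm'
    exact hm' (f i) (Finset.mem_image_of_mem _ (Finset.mem_range.2 (by omega)))
  choose g hg hgb using h1
  let m : ℕ → ℕ := fun n => Nat.rec 0 (fun n k => g n k) n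
  have hm_succ : ∀ n, m (n + 1) = g n (m n) := fun n => rfl
  have hmono : StrictMono m := strictMono_nat_of_lt_succ fun n => by
    rw [hm_succ]; exact hg _ _
  refine ⟨range m, infinite_range_of_injective hmono.injective, fun j => ?_⟩
  obtain ⟨i, rfl⟩ := hf j
  refine ((Set.finite_Iic i).image m).subset ?_
  rintro _ ⟨⟨n, rfl⟩, hn⟩
  refine ⟨n, ?_, rfl⟩
  by_contra hcon
  simp only [mem_Iic, not_le] at hcon
  obtain ⟨k, rfl⟩ : ∃ k, n = k + 1 := ⟨n - 1, by omega⟩
  exact hn (by rw [hm_succ]; exact hgb k (m k) i (by omega))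

/-- the point attached to `a` and `z` -/
noncomputable def pt (a : Set ℕ) (z : ℕ → ℕ) : ℕ → ℕ :=
  open Classical in fun n => if n / 2 ∈ a then min (z n) (n + 1) else 0

lemma pt_mem_P0 (a : Set ℕ) (z : ℕ → ℕ) : pt a z ∈ P0 := by
  intro n
  unfold pt
  split_ifs
  · exact min_le_right _ _
  · exact Nat.zero_le _

/-- The main recursion: along a well-order `I` with countable initial segments. -/
lemma tower {I : Type*} [LinearOrder I] [WellFoundedLT I] (hI : ∀ i : I, (Iio i).Countable)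
    (z : I → ℕ → ℕ) (C : I → ℕ → Set Code) :
    ∃ a : I → Set ℕ, ∀ i, (a i).Infinite ∧ (∀ j < i, (a i \ a j).Finite) ∧
      ((∀ n, Cov (C i n) ({x | ∃ j < i, x = pt (a j) (z j)} ∪ Q0)) →
        ∃ S : ℕ → Code, (∀ n, S n ∈ C i n) ∧ (∀ j < i, ∀ᶠ n in atTop, pt (a j) (z j) ∈ cl (S n)) ∧
          ∀ x ∈ P0, (∃ N, ∀ n ≥ N, n / 2 ∉ a i → x n = 0) → ∀ᶠ n in atTop, x ∈ cl (S n)) := by
  classical
  let Good : I → (I → Set ℕ) → Set ℕ → Prop := fun i f b =>
    b.Infinite ∧ (∀ j < i, (b \ f j).Finite) ∧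
      ((∀ n, Cov (C i n) ({x | ∃ j < i, x = pt (f j) (z j)} ∪ Q0)) →
        ∃ S : ℕ → Code, (∀ n, S n ∈ C i n) ∧ (∀ j < i, ∀ᶠ n in atTop, pt (f j) (z j) ∈ cl (S n)) ∧
          ∀ x ∈ P0, (∃ N, ∀ n ≥ N, n / 2 ∉ b → x n = 0) → ∀ᶠ n in atTop, x ∈ cl (S n))
  have hcongr : ∀ i (f g : I → Set ℕ) b, (∀ j < i, f j = g j) → (Good i f b ↔ Good i g b) := by
    intro i f g b h
    have h1 : {x | ∃ j < i, x = pt (f j) (z j)} = {x | ∃ j < i, x = pt (g j) (z j)} := by
      ext x
      constructor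
      · rintro ⟨j, hj, rfl⟩
        exact ⟨j, hj, by rw [h j hj]⟩
      · rintro ⟨j, hj, rfl⟩
        exact ⟨j, hj, by rw [h j hj]⟩
    have h2 : (∀ j < i, (b \ f j).Finite) ↔ ∀ j < i, (b \ g j).Finite :=
      forall₂_congr fun j hj => by rw [h j hj]
    have h3 : ∀ S : ℕ → Code, (∀ j < i, ∀ᶠ n in atTop, pt (f j) (z j) ∈ cl (S n)) ↔
        ∀ j < i, ∀ᶠ n in atTop, pt (g j) (z j) ∈ cl (S n) :=
      fun S => forall₂_congr fun j hj => by rw [h j hj]
    simp only [Good, h1, h2, h3]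
  have hex : ∀ i (f : I → Set ℕ), (∀ j < i, (f j).Infinite ∧ ∀ k < j, (f j \ f k).Finite) →
      ∃ b, Good i f b := by
    intro i f hf
    have := (hI i).to_subtype
    obtain ⟨a', ha'inf, ha'⟩ := pseudo (fun j : Iio i => f j) (by
      intro s
      rcases s.eq_empty_or_nonempty with rfl | hs
      · simpa using infinite_univ
      · -- the largest index
        set j0 := s.max' hs with hj0
        have hmem : j0 ∈ s := s.max'_mem hs
        have hfin : (⋃ j ∈ s, (f j0 \ f (j : I))).Finite := by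
          refine Set.Finite.biUnion s.finite_toSet fun j hj => ?_
          rcases (s.le_max' j hj).lt_or_eq with hlt | heq
          · exact (hf j0 j0.2).2 j hlt
          · have h5 : f (j : I) = f (j0 : I) := congrArg (fun t : Iio i => f t) heq
            rw [h5, sdiff_self]
            exact Set.finite_empty
        refine ((hf j0 j0.2).1.sdiff hfin).mono ?_
        intro n hn
        rw [mem_iInter₂]
        intro j hj
        by_contra hcon
        exact hn.2 (mem_iUnion₂.2 ⟨j, hj, hn.1, hcon⟩))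
    by_cases hcov : ∀ n, Cov (C i n) ({x | ∃ j < i, x = pt (f j) (z j)} ∪ Q0)
    · have hZ : {x | ∃ j < i, x = pt (f j) (z j)}.Countable := by
        have : {x | ∃ j < i, x = pt (f j) (z j)} = (fun j => pt (f j) (z j)) '' Iio i := by
          ext x
          constructor
          · rintro ⟨j, hj, rfl⟩; exact ⟨j, hj, rfl⟩
          · rintro ⟨j, hj, rfl⟩; exact ⟨j, hj, rfl⟩
        rw [this]
        exact (hI i).image _
      obtain ⟨a, haa', hainf, S, hS, hSZ, hSP⟩ := gm ha'inf hZ hcov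
      refine ⟨a, hainf, fun j hj => (ha' ⟨j, hj⟩).subset (sdiff_subset_sdiff_left haa'), fun _ =>
        ⟨S, hS, fun j hj => hSZ _ ⟨j, hj, rfl⟩, hSP⟩⟩
    · exact ⟨a', ha'inf, fun j hj => ha' ⟨j, hj⟩, fun h => (hcov h).elim⟩
  -- recursion
  let F : ∀ i : I, (∀ j, j < i → Set ℕ) → Set ℕ := fun i f =>
    if h : ∃ b, Good i (fun j => if hj : j < i then f j hj else ∅) b then h.choose else ∅
  let a : I → Set ℕ := (wellFounded_lt (α := I)).fix F
  have ha : ∀ i, a i = F i (fun j _ => a j) := fun i => WellFounded.fix_eq _ _ _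
  have hgood : ∀ i, Good i a (a i) := by
    intro i
    induction i using (wellFounded_lt (α := I)).induction with
    | _ i ih =>
      have h1 : ∃ b, Good i a b := hex i a fun j hj => ⟨(ih j hj).1, (ih j hj).2.1⟩
      have h2 : ∃ b, Good i (fun j => if _ : j < i then a j else ∅) b := by
        obtain ⟨b, hb⟩ := h1
        exact ⟨b, (hcongr i _ _ b (fun j hj => by simp [hj])).1 hb⟩
      have h3 : a i = h2.choose := by
        rw [ha i]
        exact dif_pos h2
      rw [h3]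
      exact (hcongr i _ _ _ (fun j hj => by simp [hj])).2 h2.choose_spec
  exact ⟨a, hgood⟩

end Pool.Agent.H62.Sel
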