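import Mathlib

/-!
# Selection principles: covers of a topological space and `S₁`
-/

set_option autoImplicit false

namespace Pool.Agent.H62.Sel

universe u

/-- A cover of `X`: a family of subsets of `X` whose union is `X` and which does not contain `X`
as a member; it is open if all members are open. -/
def IsOpenCover (X : Type u) [TopologicalSpace X] (𝒰 : Set (Set X)) : Prop :=
  ⋃₀ 𝒰 = Set.univ ∧ Set.univ ∉ 𝒰 ∧ ∀ U ∈ 𝒰, IsOpen U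

/-- `𝒪ₙ`: the open `n`-covers of `X` (every `n`-element subset lies in some member). -/
def OpenNCovers (X : Type u) [TopologicalSpace X] (n : ℕ) : Set (Set (Set X)) :=
  {𝒰 | IsOpenCover X 𝒰 ∧ ∀ F : Finset X, F.card = n → ∃ U ∈ 𝒰, (F : Set X) ⊆ U}

/-- `Ω`: the open `ω`-covers of `X` (every finite subset lies in some member). -/
def OmegaCovers (X : Type u) [TopologicalSpace X] : Set (Set (Set X)) :=
  {𝒰 | IsOpenCover X 𝒰 ∧ ∀ F : Finset X, ∃ U ∈ 𝒰, (F : Set X) ⊆ U}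

/-- `T`: the open `τ`-covers of `X`: each point lies in infinitely many members, and for all
`x, y` at least one of `{U ∈ 𝒰 : x ∈ U, y ∉ U}` and `{U ∈ 𝒰 : y ∈ U, x ∉ U}` is finite. -/
def TauCovers (X : Type u) [TopologicalSpace X] : Set (Set (Set X)) :=
  {𝒰 | IsOpenCover X 𝒰 ∧ (∀ x, {U | U ∈ 𝒰 ∧ x ∈ U}.Infinite) ∧
    ∀ x y, {U | U ∈ 𝒰 ∧ x ∈ U ∧ y ∉ U}.Finite ∨ {U | U ∈ 𝒰 ∧ y ∈ U ∧ x ∉ U}.Finite}

/-- `Γ`: the open `γ`-covers of `X`: infinite, and each point lies in all but finitely many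
members. -/
def GammaCovers (X : Type u) [TopologicalSpace X] : Set (Set (Set X)) :=
  {𝒰 | IsOpenCover X 𝒰 ∧ 𝒰.Infinite ∧ ∀ x, {U | U ∈ 𝒰 ∧ x ∉ U}.Finite}

/-- `S₁((𝔘ₙ)ₙ, 𝔙)`: for every sequence `𝒰ₙ ∈ 𝔘ₙ` there are `Uₙ ∈ 𝒰ₙ` with
`{Uₙ : n ∈ ℕ} ∈ 𝔙`. -/
def S1 {X : Type u} (𝔘 : ℕ → Set (Set (Set X))) (𝔙 : Set (Set (Set X))) : Prop :=
  ∀ 𝒰 : ℕ → Set (Set X), (∀ n, 𝒰 n ∈ 𝔘 n) → ∃ U : ℕ → Set X, (∀ n, U n ∈ 𝒰 n) ∧ Set.range U ∈ 𝔙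

end Pool.Agent.H62.Sel
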