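import Pool.Agent.H62.SelComb

/-!
# The set `X` under the continuum hypothesis
-/

set_option autoImplicit false

open Set Filter Cardinal

namespace Pool.Agent.H62.Sel

lemma mk_task : #((ℕ → ℕ) × (ℕ → Set Code)) ≤ 𝔠 := by
  have h1 : #(ℕ → ℕ) = 𝔠 := by simp
  have h2 : #Code = ℵ₀ := by simp
  have h3 : #(ℕ → Set Code) = 𝔠 := by
    rw [← power_def, mk_set, h2, mk_nat, two_power_aleph0, continuum_power_aleph0]
  rw [mk_prod, lift_id, lift_id, h1, h3, continuum_mul_self]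

theorem exists_X (hCH : Cardinal.continuum.{0} = Cardinal.aleph 1) :
    ∃ X : Set (ℕ → ℕ), X ⊆ P0 ∧ Q0 ⊆ X ∧
      (∀ C : ℕ → Set Code, (∀ n, Cov (C n) X) →
        ∃ S : ℕ → Code, (∀ n, S n ∈ C n) ∧ ∀ x ∈ X, ∀ᶠ n in atTop, x ∈ cl (S n)) ∧
      ∀ z : ℕ → ℕ, (∀ n, z n ≤ n + 1) →
        ∃ x ∈ X, {n | x (2 * n) = z (2 * n) ∧ x (2 * n + 1) = z (2 * n + 1)}.Infinite := by
  classical
  let I := (Cardinal.aleph 1).ord.ToType
  have hI1 : #I = ℵ₁ := by simp [I]
  have hI : ∀ i : I, (Iio i).Countable := by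
    intro i
    have h : #(Iio i) < ℵ₁ := by
      refine lt_of_lt_of_eq (Cardinal.mk_Iio_lt i ?_) hI1
      rw [hI1]
      simp [I]
    rw [← Cardinal.le_aleph0_iff_set_countable]
    exact Order.lt_succ_iff.1 (h.trans_eq Cardinal.succ_aleph0.symm)
  obtain ⟨e, he⟩ : ∃ e : I → (ℕ → ℕ) × (ℕ → Set Code), Function.Surjective e := by
    have h : #((ℕ → ℕ) × (ℕ → Set Code)) ≤ #I := by
      rw [hI1, ← hCH]
      exact mk_task
    obtain ⟨g⟩ := h
    exact ⟨Function.invFun g, Function.invFun_surjective g.injective⟩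
  obtain ⟨a, ha⟩ := tower hI (fun i => (e i).1) (fun i => (e i).2)
  refine ⟨{x | ∃ i, x = pt (a i) (e i).1} ∪ Q0, ?_, subset_union_right, ?_, ?_⟩
  · rintro x (⟨i, rfl⟩ | hx)
    · exact pt_mem_P0 _ _
    · exact hx.1
  · intro C hC
    obtain ⟨i, hi⟩ := he (0, C)
    have h1 := (ha i).2.2
    rw [hi] at h1
    obtain ⟨S, hS, hSj, hSP⟩ := h1 (fun n F hF => hC n F (hF.trans (by
      rintro x (⟨j, -, rfl⟩ | hx)
      · exact Or.inl ⟨j, rfl⟩
      · exact Or.inr hx)))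
    refine ⟨S, hS, ?_⟩
    rintro x (⟨j, rfl⟩ | hx)
    · rcases lt_or_ge j i with hj | hj
      · exact hSj j hj
      · refine hSP _ (pt_mem_P0 _ _) ?_
        have hfin : (a j \ a i).Finite := by
          rcases hj.lt_or_eq with hlt | heq
          · exact (ha j).2.1 i hlt
          · rw [heq]; simp
        obtain ⟨N, hN⟩ := hfin.bddAbove
        refine ⟨2 * (N + 1), fun n hn hna => ?_⟩
        have h2 : n / 2 ∉ a j := by
          intro hmem
          have := hN ⟨hmem, hna⟩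
          omega
        simp [pt, h2]
    · obtain ⟨hxP, N, hN⟩ := hx
      exact hSP x hxP ⟨N, fun n hn _ => hN n hn⟩
  · intro z hz
    obtain ⟨i, hi⟩ := he (z, fun _ => ∅)
    refine ⟨_, Or.inl ⟨i, rfl⟩, (ha i).1.mono ?_⟩
    intro n hn
    have h1 : 2 * n / 2 = n := by omega
    have h2 : (2 * n + 1) / 2 = n := by omega
    refine ⟨?_, ?_⟩
    · simp only [pt, h1, hn, if_true, hi]
      exact min_eq_left (hz _)
    · simp only [pt, h2, hn, if_true, hi]
      exact min_eq_left (hz _)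

end Pool.Agent.H62.Sel
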