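import Pool.Agent.H62.SelDefs
import Pool.Agent.H62.SelX

/-!
# From the combinatorial set to the selection principles
-/

set_option autoImplicit false

open Set Filter Topology

namespace Pool.Agent.H62.Sel

universe u

/-- An indexed selection that eventually contains every point gives a `γ`-cover. -/
lemma gamma_of_eventually {α : Type u} [TopologicalSpace α] {V : ℕ → Set α}
    (hne : ∀ n, V n ≠ univ) (ho : ∀ n, IsOpen (V n)) (hV : ∀ x, ∀ᶠ n in atTop, x ∈ V n) :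
    range V ∈ GammaCovers α := by
  refine ⟨⟨?_, ?_, ?_⟩, ?_, ?_⟩
  · refine eq_univ_of_forall fun x => ?_
    obtain ⟨n, hn⟩ := (hV x).exists
    exact ⟨V n, ⟨n, rfl⟩, hn⟩
  · rintro ⟨n, hn⟩
    exact hne n hn
  · rintro _ ⟨n, rfl⟩
    exact ho n
  · intro hfin
    have : Finite (range V) := hfin
    obtain ⟨⟨U, hU⟩, hinf⟩ := Finite.exists_infinite_fiber (rangeFactorization V)
    obtain ⟨m, rfl⟩ := hU
    apply hne m
    refine eq_univ_of_forall fun x => ?_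
    obtain ⟨N, hN⟩ := eventually_atTop.1 (hV x)
    have hinf' := Set.infinite_coe_iff.1 hinf
    obtain ⟨n, hn, hnN⟩ := hinf'.exists_gt N
    have h1 : V n = V m := congrArg Subtype.val hn
    rw [← h1]
    exact hN n hnN.le
  · intro x
    obtain ⟨N, hN⟩ := eventually_atTop.1 (hV x)
    refine ((Set.finite_Iio N).image V).subset ?_
    rintro _ ⟨⟨n, rfl⟩, hn⟩
    refine ⟨n, ?_, rfl⟩
    by_contra hcon
    exact hn (hN n (not_lt.1 hcon))

/-- `γ`-covers are `τ`-covers. -/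
lemma gamma_subset_tau {α : Type u} [TopologicalSpace α] : GammaCovers α ⊆ TauCovers α := by
  rintro 𝒰 ⟨hc, hinf, hfin⟩
  refine ⟨hc, fun x => ?_, fun x y => Or.inl ((hfin y).subset ?_)⟩
  · refine (hinf.sdiff (hfin x)).mono ?_
    rintro U ⟨hU, hxU⟩
    exact ⟨hU, by_contra fun h => hxU ⟨hU, h⟩⟩
  · rintro U ⟨hU, -, hy⟩
    exact ⟨hU, hy⟩

lemma S1_mono {α : Type u} {𝔘 : ℕ → Set (Set (Set α))} {𝔙 𝔙' : Set (Set (Set α))}
    (h : 𝔙 ⊆ 𝔙') (hS : S1 𝔘 𝔙) : S1 𝔘 𝔙' := by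
  intro 𝒰 h𝒰
  obtain ⟨U, hU, hr⟩ := hS 𝒰 h𝒰
  exact ⟨U, hU, h hr⟩

section Main

variable {α : Type u} [TopologicalSpace α] {ψ : α → (ℕ → ℕ) × Bool} {X : Set (ℕ → ℕ)}

/-- cylinders are small in the product topology -/
lemma exists_cyl {O : Set ((ℕ → ℕ) × Bool)} (hO : IsOpen O) {x : ℕ → ℕ} {b : Bool}
    (hx : (x, b) ∈ O) : ∃ k, ∀ y : ℕ → ℕ, (∀ i < k, y i = x i) → (y, b) ∈ O := by
  have h1 : IsOpen {y : ℕ → ℕ | (y, b) ∈ O} := hO.preimage (by fun_prop)
  obtain ⟨I, u, hu, hsub⟩ := isOpen_pi_iff.1 h1 x hx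
  refine ⟨I.sup id + 1, fun y hy => hsub ?_⟩
  intro i hi
  have : i < I.sup id + 1 := Nat.lt_succ_of_le (Finset.le_sup (f := id) hi)
  rw [hy i this]
  exact (hu i hi).2

theorem S1_omega_gamma (hψ : IsInducing ψ) (hinj : Function.Injective ψ)
    (hran : range ψ = {p | p.1 ∈ X})
    (hX : ∀ C : ℕ → Set Code, (∀ n, Cov (C n) X) →
        ∃ S : ℕ → Code, (∀ n, S n ∈ C n) ∧ ∀ x ∈ X, ∀ᶠ n in atTop, x ∈ cl (S n)) :
    S1 (fun _ => OmegaCovers α) (GammaCovers α) := by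
  classical
  intro 𝒱 h𝒱
  obtain ⟨S, hS, hSx⟩ := hX (fun n => {S | ∃ V ∈ 𝒱 n, ∀ v, (ψ v).1 ∈ cl S → v ∈ V}) (by
    intro n F hF
    have hfin : (ψ ⁻¹' ((F : Set (ℕ → ℕ)) ×ˢ (univ : Set Bool))).Finite :=
      (F.finite_toSet.prod finite_univ).preimage hinj.injOn
    obtain ⟨V, hV, hFV⟩ := (h𝒱 n).2 hfin.toFinset
    rw [Finite.coe_toFinset] at hFV
    obtain ⟨O, hO, hOV⟩ := hψ.isOpen_iff.1 ((h𝒱 n).1.2.2 V hV)
    have hFO : ∀ x ∈ F, ∀ b : Bool, (x, b) ∈ O := by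
      intro x hx b
      have h1 : ((x, b) : (ℕ → ℕ) × Bool) ∈ range ψ := by
        rw [hran]; exact hF hx
      obtain ⟨v, hv⟩ := h1
      have h2 : v ∈ V := hFV (by simp [hv, hx])
      rw [← hOV, mem_preimage, hv] at h2
      exact h2
    have h3 : ∀ x ∈ F, ∃ k, ∀ b : Bool, ∀ y : ℕ → ℕ, (∀ i < k, y i = x i) → (y, b) ∈ O := by
      intro x hx
      obtain ⟨k1, hk1⟩ := exists_cyl hO (hFO x hx true)
      obtain ⟨k2, hk2⟩ := exists_cyl hO (hFO x hx false)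
      refine ⟨max k1 k2, ?_⟩
      rintro (_ | _) y hy
      · exact hk2 y fun i hi => hy i (hi.trans_le (le_max_right _ _))
      · exact hk1 y fun i hi => hy i (hi.trans_le (le_max_left _ _))
    choose! k hk using h3
    refine ⟨F.image (fun x => (List.range (k x)).map x), ⟨V, hV, ?_⟩, ?_⟩
    · rintro v ⟨m, hm⟩
      rw [Finset.mem_image] at hm
      obtain ⟨x, hx, hxm⟩ := hm
      have hlen : k x = m := by simpa using congrArg List.length hxm
      subst hlen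
      rw [map_range_eq_iff] at hxm
      rw [← hOV]
      exact hk x hx (ψ v).2 (ψ v).1 fun i hi => (hxm i hi).symm
    · intro x hx
      exact ⟨k x, Finset.mem_image_of_mem _ hx⟩)
  choose V hV hVS using hS
  refine ⟨V, hV, gamma_of_eventually (fun n h => (h𝒱 n).1.2.1 (h ▸ hV n))
    (fun n => (h𝒱 n).1.2.2 _ (hV n)) fun v => ?_⟩
  have h1 : (ψ v).1 ∈ X := by
    have : ψ v ∈ range ψ := ⟨v, rfl⟩
    rw [hran] at this
    exact this
  filter_upwards [hSx _ h1] with n hn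
  exact hVS n v hn

/-- the test sets -/
def test (ψ : α → (ℕ → ℕ) × Bool) (n s : ℕ) : Set α :=
  {v | (ψ v).2 = decide (n % 2 = 0) → (ψ v).1 n ≠ s}

lemma isOpen_test (hψ : Continuous ψ) (n s : ℕ) : IsOpen (test ψ n s) := by
  have h1 : IsOpen {p : (ℕ → ℕ) × Bool | p.2 = decide (n % 2 = 0) → p.1 n ≠ s} := by
    have : {p : (ℕ → ℕ) × Bool | p.2 = decide (n % 2 = 0) → p.1 n ≠ s} =
        (fun p : (ℕ → ℕ) × Bool => (p.1 n, p.2)) ⁻¹' {q | q.2 = decide (n % 2 = 0) → q.1 ≠ s} := rfl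
    rw [this]
    exact (isOpen_discrete _).preimage (by fun_prop)
  exact h1.preimage hψ

/-- a rational point with two prescribed values -/
lemma exists_rat (n m s t : ℕ) (hs : s ≤ n + 1) (ht : t ≤ m + 1) (hnm : n ≠ m) :
    ∃ q ∈ Q0, q n = s ∧ q m = t := by
  refine ⟨fun i => if i = n then s else if i = m then t else 0, ⟨?_, n + m + 1, ?_⟩, ?_, ?_⟩
  · intro i
    change (if i = n then s else if i = m then t else 0) ≤ i + 1
    split_ifs with h1 h2
    · rw [h1]; exact hs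
    · rw [h2]; exact ht
    · omega
  · intro i hi
    have h1 : i ≠ n := by omega
    have h2 : i ≠ m := by omega
    simp [h1, h2]
  · simp
  · simp [hnm.symm]

lemma test_cover (hψ : Continuous ψ) (hran : range ψ = {p | p.1 ∈ X})
    (hQ : Q0 ⊆ X) (n k : ℕ) (hk : k ≤ n + 1) :
    {U | ∃ s ≤ n + 1, U = test ψ n s} ∈ OpenNCovers α k := by
  classical
  have key : ∀ F : Finset α, F.card ≤ n + 1 → ∃ s ≤ n + 1, (F : Set α) ⊆ test ψ n s := by
    intro F hF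
    obtain ⟨s, hs, hsF⟩ : ∃ s ∈ Finset.range (n + 2), s ∉ F.image (fun v => (ψ v).1 n) := by
      apply Finset.exists_mem_notMem_of_card_lt_card
      rw [Finset.card_range]
      exact lt_of_le_of_lt Finset.card_image_le (by omega)
    refine ⟨s, by have := Finset.mem_range.1 hs; omega, fun v hv _ heq => hsF ?_⟩
    exact Finset.mem_image.2 ⟨v, hv, heq⟩
  refine ⟨⟨?_, ?_, ?_⟩, ?_⟩
  · refine eq_univ_of_forall fun v => ?_
    obtain ⟨s, hs, hsub⟩ := key {v} (by simp)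
    exact ⟨_, ⟨s, hs, rfl⟩, hsub (by simp)⟩
  · rintro ⟨s, hs, h⟩
    obtain ⟨q, hq, hqs, -⟩ := exists_rat n (n + 1) s 0 hs (by omega) (by omega)
    have h1 : ((q, decide (n % 2 = 0)) : (ℕ → ℕ) × Bool) ∈ range ψ := by
      rw [hran]; exact hQ hq
    obtain ⟨v, hv⟩ := h1
    have h2 : v ∈ test ψ n s := h ▸ mem_univ v
    exact h2 (by rw [hv]) (by rw [hv]; exact hqs)
  · rintro _ ⟨s, -, rfl⟩
    exact isOpen_test hψ n s
  · intro F hF
    obtain ⟨s, hs, hsub⟩ := key F (by omega)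
    exact ⟨_, ⟨s, hs, rfl⟩, hsub⟩

omit [TopologicalSpace α] in
lemma test_injective (hran : range ψ = {p | p.1 ∈ X}) (hQ : Q0 ⊆ X) {n m s t : ℕ}
    (hs : s ≤ n + 1) (hnm : n ≠ m) : test ψ n s ≠ test ψ m t := by
  intro h
  obtain ⟨t', ht', htt'⟩ : ∃ t' ≤ m + 1, t' ≠ t := by
    by_cases h0 : t = 0
    · exact ⟨1, by omega, by omega⟩
    · exact ⟨0, by omega, fun h1 => h0 h1.symm⟩
  obtain ⟨q, hq, hqs, hqt⟩ := exists_rat n m s t' hs ht' hnm
  have h1 : ((q, decide (n % 2 = 0)) : (ℕ → ℕ) × Bool) ∈ range ψ := by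
    rw [hran]; exact hQ hq
  obtain ⟨v, hv⟩ := h1
  have h2 : v ∈ test ψ m t := by
    intro _
    rw [hv]
    change q m ≠ t
    rw [hqt]
    exact htt'
  rw [← h] at h2
  exact h2 (by rw [hv]) (by rw [hv]; exact hqs)

theorem not_S1 (hψ : Continuous ψ) (hran : range ψ = {p | p.1 ∈ X}) (hQ : Q0 ⊆ X)
    (hX : ∀ z : ℕ → ℕ, (∀ n, z n ≤ n + 1) →
        ∃ x ∈ X, {n | x (2 * n) = z (2 * n) ∧ x (2 * n + 1) = z (2 * n + 1)}.Infinite)
    (g : ℕ → ℕ) (hg : ∀ n, g n ≤ n + 1) :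
    ¬ S1 (fun n => OpenNCovers α (g n)) (TauCovers α) := by
  intro hS
  obtain ⟨U, hU, hT⟩ := hS (fun n => {U | ∃ s ≤ n + 1, U = test ψ n s})
    (fun n => test_cover hψ hran hQ n (g n) (hg n))
  choose z hz hUz using hU
  obtain ⟨x, hx, hinf⟩ := hX z hz
  obtain ⟨v1, hv1⟩ : ((x, true) : (ℕ → ℕ) × Bool) ∈ range ψ := by rw [hran]; exact hx
  obtain ⟨v0, hv0⟩ : ((x, false) : (ℕ → ℕ) × Bool) ∈ range ψ := by rw [hran]; exact hx
  have hinjU : ∀ n m, U n = U m → n = m := by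
    intro n m h
    by_contra hnm
    rw [hUz n, hUz m] at h
    exact test_injective hran hQ (hz n) hnm h
  set A := {n | x (2 * n) = z (2 * n) ∧ x (2 * n + 1) = z (2 * n + 1)} with hA
  -- the even indices
  have hev : {W | W ∈ range U ∧ v0 ∈ W ∧ v1 ∉ W}.Infinite := by
    have h1 : ((fun n => U (2 * n)) '' A).Infinite :=
      hinf.image fun n _ m _ h => by have := hinjU _ _ h; omega
    refine h1.mono ?_
    rintro _ ⟨n, hn, rfl⟩
    refine ⟨⟨_, rfl⟩, ?_, ?_⟩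
    · beta_reduce
      rw [hUz]
      intro h
      simp [hv0] at h
    · beta_reduce
      rw [hUz]
      intro h
      exact h (by simp [hv1]) (by rw [hv1]; exact hn.1)
  have hod : {W | W ∈ range U ∧ v1 ∈ W ∧ v0 ∉ W}.Infinite := by
    have h1 : ((fun n => U (2 * n + 1)) '' A).Infinite :=
      hinf.image fun n _ m _ h => by have := hinjU _ _ h; omega
    refine h1.mono ?_
    rintro _ ⟨n, hn, rfl⟩
    refine ⟨⟨_, rfl⟩, ?_, ?_⟩
    · beta_reduce
      rw [hUz]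
      intro h
      simp [hv1] at h
    · beta_reduce
      rw [hUz]
      intro h
      refine h ?_ (by rw [hv0]; exact hn.2)
      simp [hv0]
  rcases hT.2.2 v0 v1 with h | h
  · exact hev h
  · exact hod h

end Main

end Pool.Agent.H62.Sel
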